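import Mathlib
import Pool.Agent.R493.SC.Geo
import Pool.Agent.Helper162_cun.Comb

/-!
# A third of all lags in Cunningham chains of the first kind

A chain of the first kind consists of the numbers `2 ^ d (p + 1) - 1`, `d = 0, 1, 2, ...`. Call `d` a
good lag at `X` if for at least `X / (log X) ^ B` primes `p ≤ X` the number `2 ^ d (p + 1) - 1`, which
comes `d` steps after `p`, is prime, too. For every `ε > 0` there are `C` and `B` such that for all
`b ≥ 1` and `H ≥ C` and all large `X` at least `(1/3 - ε) H` of the multiples `b, 2 b, ..., H b` are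
good lags at `X`.

Proof: two of any four large classes of linear forms contain forms which are often prime together
(`Pool.Agent.R493.SC.classesN`); a set of more than two thirds of `{1, ..., H}` contains all
differences of many quadruples (`Pool.Agent.TH899.UG.TD.quad`); the box theorem of Erdos.
-/

set_option autoImplicit false

namespace Pool.Agent.Results.MP_c77da8_nt.ThirdOfLags

open Finset Filter
open Pool.Agent.R493.SC (classesN log_loss geo_adf geo_loc cntG cntN_le_cntG)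
open Pool.Agent.Y827.GS (cntN cntN_anti Adf)

/-- the number of the primes `p ≤ X` such that the number `2 ^ d (p + 1) - 1`, which comes `d` steps
after `p` in the chain of the first kind, is prime, too -/
def lag (d X : ℕ) : ℕ :=
  ((Icc 1 X).filter (fun p : ℕ => p.Prime ∧ (2 ^ d * (p + 1) - 1).Prime)).card

theorem cnt_lag {u v D N X : ℕ} (huv : u < v) (hN : 1 ≤ N) (hX : 2 ^ u * (D * N) ≤ X) :
    cntG 2 (-1) D {u, v} N ≤ lag (v - u) X := by
  unfold cntG lag
  have key : ∀ j n : ℕ, 1 ≤ n → (((2 : ℕ) : ℤ) ^ j * (n : ℤ) + (-1)).toNat = 2 ^ j * n - 1 := by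
    intro j n hn
    have h4 : 1 ≤ 2 ^ j * n := Nat.mul_pos (by positivity) hn
    have h5 : ((2 : ℕ) : ℤ) ^ j * (n : ℤ) = ((2 ^ j * n : ℕ) : ℤ) := by push_cast; ring
    rw [h5]
    omega
  refine card_le_card_of_injOn (fun n => 2 ^ u * n - 1) ?_ ?_
  · intro n hn
    obtain ⟨h1, h2⟩ := mem_filter.1 (mem_coe.1 hn)
    obtain ⟨h3, h4⟩ := mem_Icc.1 h1
    have hn1 : 1 ≤ n := hN.trans h3
    have p1 := h2 u (by simp)
    have p2 := h2 v (by simp)
    rw [key u n hn1] at p1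
    rw [key v n hn1] at p2
    have h5 : 1 ≤ 2 ^ u * n := Nat.mul_pos (by positivity) hn1
    refine mem_coe.2 (mem_filter.2 ⟨mem_Icc.2 ⟨p1.one_lt.le, ?_⟩, p1, ?_⟩)
    · have h6 : 2 ^ u * n ≤ 2 ^ u * (D * N) := Nat.mul_le_mul_left _ h4
      show 2 ^ u * n - 1 ≤ X
      omega
    · show (2 ^ (v - u) * (2 ^ u * n - 1 + 1) - 1).Prime
      have h6 : 2 ^ u * n - 1 + 1 = 2 ^ u * n := by omega
      have h7 : 2 ^ (v - u) * (2 ^ u * n) = 2 ^ v * n := by
        rw [← mul_assoc, ← pow_add, Nat.sub_add_cancel huv.le]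
      rw [h6, h7]
      exact p2
  · intro n hn m hm h
    obtain ⟨h1, -⟩ := mem_filter.1 (mem_coe.1 hn)
    obtain ⟨h1', -⟩ := mem_filter.1 (mem_coe.1 hm)
    have hn1 : 1 ≤ n := hN.trans (mem_Icc.1 h1).1
    have hm1 : 1 ≤ m := hN.trans (mem_Icc.1 h1').1
    have h5 : 1 ≤ 2 ^ u * n := Nat.mul_pos (by positivity) hn1
    have h6 : 1 ≤ 2 ^ u * m := Nat.mul_pos (by positivity) hm1
    have h7 : 2 ^ u * n - 1 = 2 ^ u * m - 1 := h
    have h8 : 2 ^ u * n = 2 ^ u * m := by omega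
    exact Nat.eq_of_mul_eq_mul_left (by positivity) h8

theorem scale (B a : ℕ) (ha : 1 ≤ a) : ∀ᶠ X : ℕ in atTop,
    (X : ℝ) / (Real.log X) ^ (B + 1) ≤ ((X / a : ℕ) : ℝ) / (Real.log ((X / a : ℕ) : ℝ)) ^ B := by
  have h1 : ∀ᶠ X : ℕ in atTop, (2 * a : ℝ) ≤ Real.log X :=
    (Real.tendsto_log_atTop.comp tendsto_natCast_atTop_atTop).eventually_ge_atTop _
  filter_upwards [h1, eventually_ge_atTop (3 * a)] with X h2 h3
  obtain ⟨M, hM⟩ : ∃ M, M = X / a := ⟨_, rfl⟩
  rw [← hM]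
  have hM3 : 3 ≤ M := by rw [hM]; exact (Nat.le_div_iff_mul_le (by omega)).2 h3
  have hX : X ≤ 2 * a * M := by
    have h4 : X < a * (M + 1) := by rw [hM]; exact Nat.lt_mul_div_succ X (by omega : 0 < a)
    nlinarith
  have hM0 : (1 : ℝ) < M := by exact_mod_cast (by omega : 1 < M)
  have hMX : (M : ℝ) ≤ X := by rw [hM]; exact_mod_cast Nat.div_le_self X a
  have hlM : 0 < Real.log M := Real.log_pos hM0
  have hlMX : Real.log M ≤ Real.log X := Real.log_le_log (by linarith) hMX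
  have hlX : 0 < Real.log X := hlM.trans_le hlMX
  have hXr : (X : ℝ) ≤ 2 * a * M := by exact_mod_cast hX
  have hMn : (0 : ℝ) ≤ M := by linarith
  calc (X : ℝ) / (Real.log X) ^ (B + 1) ≤ (2 * a * M) / (Real.log X) ^ (B + 1) :=
        div_le_div_of_nonneg_right hXr (by positivity)
    _ ≤ (Real.log X * M) / (Real.log X) ^ (B + 1) :=
        div_le_div_of_nonneg_right (mul_le_mul_of_nonneg_right h2 hMn) (by positivity)
    _ = M / (Real.log X) ^ B := by
        rw [pow_succ]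
        field_simp
    _ ≤ M / (Real.log M) ^ B :=
        div_le_div_of_nonneg_left hMn (by positivity) (pow_le_pow_left₀ hlM.le hlMX B)

open Classical in
/-- **A third of the multiples of every number are good lags.** -/
theorem result (ε : ℝ) (hε : 0 < ε) : ∃ C B : ℕ, ∀ b H : ℕ, 1 ≤ b → C ≤ H →
    ∀ᶠ X : ℕ in atTop, (1 / 3 - ε) * (H : ℝ) ≤ (((Icc 1 H).filter (fun k : ℕ =>
      (X : ℝ) / (Real.log X) ^ B ≤ (lag (b * k) X : ℝ))).card : ℝ) := by
  obtain ⟨K, C₀, hK, hcl⟩ := classesN 4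
  obtain ⟨e, he⟩ : ∃ e, e = min ε 1 := ⟨_, rfl⟩
  have he0 : 0 < e := by rw [he]; positivity
  have he1 : e ≤ 1 := by rw [he]; exact min_le_right _ _
  have heε : e ≤ ε := by rw [he]; exact min_le_left _ _
  obtain ⟨C, hC⟩ := Pool.Agent.Helper162_cun.comb K e he0 he1
  refine ⟨C, C₀ + 1 + 1, fun b H hb hCH => ?_⟩
  obtain ⟨E, hE⟩ : ∃ E : ℕ, E = 2 ^ (b * (5 * H)) := ⟨_, rfl⟩
  have hE1 : 1 ≤ E := by rw [hE]; exact Nat.one_le_two_pow
  have hEE : 1 ≤ E * (6 * E) := Nat.mul_pos hE1 (by omega)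
  obtain ⟨N₀, hN₀⟩ := hcl E
  obtain ⟨N₁, hN₁⟩ := log_loss C₀ (4 * E) (by omega)
  filter_upwards [eventually_ge_atTop ((N₀ + N₁ + E) * (E * (6 * E))),
    scale (C₀ + 1) (E * (6 * E)) hEE] with X hX hsc
  obtain ⟨N, hN⟩ : ∃ N, N = X / (E * (6 * E)) := ⟨_, rfl⟩
  rw [← hN] at hsc
  have hNge : N₀ + N₁ + E ≤ N := by rw [hN]; exact (Nat.le_div_iff_mul_le hEE).2 hX
  have hEN : E ≤ N := by omega
  have hN1 : 1 ≤ N := by omega
  have hNX : E * (6 * E * N) ≤ X := by
    have h1 : E * (6 * E) * N ≤ X := by rw [hN]; exact Nat.mul_div_le X _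
    calc E * (6 * E * N) = E * (6 * E) * N := by ring
      _ ≤ X := h1
  by_contra hcon
  push Not at hcon
  obtain ⟨B, hB⟩ : ∃ B, B = (Icc 1 H).filter (fun k : ℕ =>
      ¬ (X : ℝ) / (Real.log X) ^ (C₀ + 1 + 1) ≤ (lag (b * k) X : ℝ)) := ⟨_, rfl⟩
  have hsum : ((Icc 1 H).filter (fun k : ℕ =>
      (X : ℝ) / (Real.log X) ^ (C₀ + 1 + 1) ≤ (lag (b * k) X : ℝ))).card + B.card = H := by
    rw [hB, card_filter_add_card_filter_not, Nat.card_Icc, Nat.add_sub_cancel]
  have hsumr : ((((Icc 1 H).filter (fun k : ℕ =>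
      (X : ℝ) / (Real.log X) ^ (C₀ + 1 + 1) ≤ (lag (b * k) X : ℝ))).card : ℕ) : ℝ) +
      (B.card : ℝ) = H := by exact_mod_cast hsum
  have hBI : B ⊆ Icc 1 H := by rw [hB]; exact filter_subset _ _
  have hH0 : (0 : ℝ) ≤ H := Nat.cast_nonneg _
  have hBr : (2 / 3 + e) * (H : ℝ) ≤ B.card := by nlinarith
  obtain ⟨A, hA1, hA2, hA3⟩ := hC H hCH B hBI hBr
  have h4EN : N ≤ 4 * E * N := Nat.le_mul_of_pos_left N (by omega)
  have hbA : ∀ g i, b * A g i ≤ b * (5 * H) := fun g i => Nat.mul_le_mul_left _ (hA3 g i).le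
  have hAinj : ∀ z w : Fin 4 × Fin K, A z.1 z.2 = A w.1 w.2 → z = w := by
    rintro ⟨g, i⟩ ⟨g', j⟩ h
    simp only at h
    rcases lt_trichotomy g g' with h4 | h4 | h4
    · have := (hA2 g g' h4 i j).1
      omega
    · subst h4
      rw [hA1 g h]
    · have := (hA2 g' g h4 j i).1
      omega
  have hco : IsCoprime (((2 : ℕ) : ℤ)) (-1 : ℤ) := isCoprime_one_right.neg_right
  obtain ⟨S, c, hS, hc⟩ := hN₀ (4 * E * N) (by omega) 4 le_rfl
    (fun g i => (((2 : ℕ) : ℤ) ^ (b * A g i), ((2 : ℕ) : ℤ) ^ (b * A g i) * (N + E) + (-1)))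
    (by
      intro z w hzw
      simp only [Prod.mk.injEq] at hzw
      have h3 : 2 ^ (b * A z.1 z.2) = 2 ^ (b * A w.1 w.2) := by exact_mod_cast hzw.1
      have h4 := Nat.pow_right_injective le_rfl h3
      exact hAinj z w (Nat.eq_of_mul_eq_mul_left (by omega) h4))
    (fun g i => geo_adf (W := b * (5 * H)) le_rfl hco (by rw [hE]) (by simpa using hE1)
      (hbA g i) hEN)
    (fun p hp _ => by
      obtain ⟨r, hr⟩ := geo_loc (d := 2) (E := E) (N := N) hco hp
      exact ⟨r, fun g i => hr _⟩)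
  have fin : ∀ g g' : Fin 4, g ∈ S → g' ∈ S → g < g' → False := by
    intro g g' hg hg' hgg
    obtain ⟨h1, h2⟩ := hA2 g g' hgg (c g) (c g')
    rw [hB, mem_filter] at h2
    apply h2.2
    obtain ⟨u, hu⟩ : ∃ u, u = b * A g (c g) := ⟨_, rfl⟩
    obtain ⟨v, hv⟩ : ∃ v, v = b * A g' (c g') := ⟨_, rfl⟩
    have huv : u < v := by rw [hu, hv]; exact Nat.mul_lt_mul_of_pos_left h1 (by omega)
    have hsub : b * (A g' (c g') - A g (c g)) = v - u := by rw [hu, hv, Nat.mul_sub]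
    have h3 : cntN (S.image (fun g => (((2 : ℕ) : ℤ) ^ (b * A g (c g)),
        ((2 : ℕ) : ℤ) ^ (b * A g (c g)) * (N + E) + (-1)))) (4 * E * N) ≤
        cntN (({u, v} : Finset ℕ).image (fun v => (((2 : ℕ) : ℤ) ^ v,
          ((2 : ℕ) : ℤ) ^ v * (N + E) + (-1)))) (4 * E * N) := by
      apply cntN_anti
      intro f hf
      obtain ⟨w, hw, rfl⟩ := mem_image.1 hf
      rw [mem_insert, mem_singleton] at hw
      rcases hw with rfl | rfl
      · exact mem_image.2 ⟨g, hg, by rw [hu]⟩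
      · exact mem_image.2 ⟨g', hg', by rw [hv]⟩
    have h4 := cntN_le_cntG (d := 2) (c := -1) hE1 hEN ({u, v} : Finset ℕ)
    have h5 := cnt_lag (u := u) (v := v) (D := 6 * E) (N := N) (X := X) huv hN1 (by
      refine le_trans (Nat.mul_le_mul_right _ ?_) hNX
      rw [hu, hE]
      exact Nat.pow_le_pow_right (by norm_num) (hbA g (c g)))
    rw [hsub]
    refine hsc.trans ((hN₁ N (by omega)).trans (hc.trans ?_))
    exact_mod_cast h3.trans (h4.trans h5)
  have hS2 : 1 < S.card := by omega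
  obtain ⟨g, hg, g', hg', hne⟩ := Finset.one_lt_card.1 hS2
  rcases lt_or_gt_of_ne hne with h | h
  · exact fin g g' hg hg' h
  · exact fin g' g hg' hg h

end Pool.Agent.Results.MP_c77da8_nt.ThirdOfLags
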